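import Pool.Agent.Lib.MP_cc278a_pr.Heavy

set_option autoImplicit false
open MeasureTheory ProbabilityTheory

namespace Pool.Agent.Results.MP_cc278a_pr.HeavyTails

theorem result :
    ∀ (Ω : Type) [MeasurableSpace Ω] (P : Measure Ω) [IsProbabilityMeasure P]
      (X₁ X₂ G : Ω → ℝ),
      Measurable X₁ → Measurable X₂ → Measurable G →
      MemLp X₁ 2 P → MemLp X₂ 2 P →
      IndepFun X₁ X₂ P →
      IndepFun X₁ G P →
      (∃ m : ℝ, P.map G = gaussianReal m (variance X₂ P).toNNReal) →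
      ∀ (g₁ g₂ : ℝ → ℝ), ConvexOn ℝ (Set.Ioi 0) g₁ → ConvexOn ℝ (Set.Ioi 0) g₂ →
      P.map X₁ = (volume : Measure ℝ).withDensity
        (fun x => ENNReal.ofReal (Real.exp (g₁ (x ^ 2)))) →
      P.map X₂ = (volume : Measure ℝ).withDensity
        (fun x => ENNReal.ofReal (Real.exp (g₂ (x ^ 2)))) →
      Integrable (fun x : ℝ => Real.negMulLog (((P.map (X₁ + X₂)).rnDeriv volume x).toReal)) →
      ∫ x : ℝ, Real.negMulLog (((P.map (X₁ + X₂)).rnDeriv volume x).toReal)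
        ≤ ∫ x : ℝ, Real.negMulLog (((P.map (X₁ + G)).rnDeriv volume x).toReal) := by
  intro Ω _ P _ X₁ X₂ G h1 h2 hG hL hL2 hi12 hi1G hg g₁ g₂ hg1 hg2 hp1 hp2 hint
  exact Lib.MP_cc278a_pr.heavy Ω P X₁ X₂ G h1 h2 hG hL hL2 hi12 hi1G hg g₁ g₂ hg1 hg2 hp1 hp2 hint

end Pool.Agent.Results.MP_cc278a_pr.HeavyTails
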