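import Pool.Agent.Lib.MP_cc278a_pr.SD7

set_option autoImplicit false
open MeasureTheory ProbabilityTheory

namespace Pool.Agent.Results.MP_cc278a_pr.SelfDecomposable

theorem result :
    ∀ (Ω : Type) [MeasurableSpace Ω] (P : Measure Ω) [IsProbabilityMeasure P]
      (X₁ X₂ G : Ω → ℝ),
      Measurable X₁ → Measurable X₂ → Measurable G →
      MemLp X₁ 2 P →
      IdentDistrib X₁ X₂ P P →
      IndepFun X₁ X₂ P →
      IndepFun X₁ G P →
      (∃ m : ℝ, P.map G = gaussianReal m (variance X₁ P).toNNReal) →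
      (∀ c : ℝ, 0 < c → c < 1 → ∃ ρ : Measure ℝ, IsProbabilityMeasure ρ ∧
        P.map X₁ = Measure.conv ((P.map X₁).map (fun x : ℝ => c * x)) ρ) →
      P.map (X₁ + X₂) ≪ (volume : Measure ℝ) →
      Integrable (fun x : ℝ => Real.negMulLog (((P.map (X₁ + X₂)).rnDeriv volume x).toReal)) →
      ∫ x : ℝ, Real.negMulLog (((P.map (X₁ + X₂)).rnDeriv volume x).toReal)
        ≤ ∫ x : ℝ, Real.negMulLog (((P.map (X₁ + G)).rnDeriv volume x).toReal) := by
  intro Ω _ P _ X₁ X₂ G h1 h2 hG hL hid hi12 hi1G hg hs hac hint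
  exact Lib.MP_cc278a_pr.selfdecomposable Ω P X₁ X₂ G h1 h2 hG hL hid hi12 hi1G hg hs hac hint

end Pool.Agent.Results.MP_cc278a_pr.SelfDecomposable
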