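import Pool.Agent.Lib.MP_cc278a_pr.Skew

set_option autoImplicit false
open MeasureTheory ProbabilityTheory

namespace Pool.Agent.Results.MP_cc278a_pr.Skewed

theorem result :
    ∀ (Ω : Type) [MeasurableSpace Ω] (P : Measure Ω) [IsProbabilityMeasure P]
      (X₁ X₂ G : Ω → ℝ),
      Measurable X₁ → Measurable X₂ → Measurable G →
      MemLp X₁ 2 P →
      IdentDistrib X₁ X₂ P P →
      IndepFun X₁ X₂ P →
      IndepFun X₁ G P →
      (∃ m : ℝ, P.map G = gaussianReal m (variance X₁ P).toNNReal) →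
      ∀ (I : Set ℝ) (V : ℝ → ℝ), IsOpen I → DifferentiableOn ℝ V I →
      ((IsUpperSet I ∧ ConcaveOn ℝ I (deriv V)) ∨ (IsLowerSet I ∧ ConvexOn ℝ I (deriv V))) →
      P.map X₁ = ((volume : Measure ℝ).restrict I).withDensity
        (fun x => ENNReal.ofReal (Real.exp (-V x))) →
      Integrable (fun x : ℝ => Real.negMulLog (((P.map (X₁ + X₂)).rnDeriv volume x).toReal)) →
      ∫ x : ℝ, Real.negMulLog (((P.map (X₁ + X₂)).rnDeriv volume x).toReal)
        ≤ ∫ x : ℝ, Real.negMulLog (((P.map (X₁ + G)).rnDeriv volume x).toReal) := by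
  intro Ω _ P _ X₁ X₂ G h1 h2 hG hL hid hi12 hi1G hg I V hI hVd hV hlaw hint
  rw [Lib.MP_cc278a_pr.dm_pd V hI] at hlaw
  refine Lib.MP_cc278a_pr.of_law Ω P X₁ X₂ G h1 h2 hG hL hid hi12 hi1G hg hint _ hlaw ?_
  intro _ hm v hv hvar
  rcases hV with ⟨hu, hc⟩ | ⟨hu, hc⟩
  · exact Lib.MP_cc278a_pr.skew_pot hI hVd 1 (Or.inl ⟨rfl, hu⟩)
      (by simpa [Pi.neg_def] using hc.neg) hm v hv hvar
  · exact Lib.MP_cc278a_pr.skew_pot hI hVd (-1) (Or.inr ⟨rfl, hu⟩) (by simpa using hc) hm v hv hvar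

end Pool.Agent.Results.MP_cc278a_pr.Skewed
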