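import Pool.Agent.Lib.MP_cc278a_pr.SG.Main

set_option autoImplicit false
open MeasureTheory ProbabilityTheory

namespace Pool.Agent.Results.MP_cc278a_pr.SubGaussian

theorem result :
    ∀ (Ω : Type) [MeasurableSpace Ω] (P : Measure Ω) [IsProbabilityMeasure P]
      (X₁ X₂ G : Ω → ℝ),
      Measurable X₁ → Measurable X₂ → Measurable G →
      MemLp X₁ 2 P →
      IdentDistrib X₁ X₂ P P →
      IndepFun X₁ X₂ P →
      IndepFun X₁ G P →
      (∃ m : ℝ, P.map G = gaussianReal m (variance X₁ P).toNNReal) →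
      (∀ l : ℝ, Integrable (fun ω => Real.exp (l * (X₁ ω - ∫ ω', X₁ ω' ∂P))) P ∧
        ∫ ω, Real.exp (l * (X₁ ω - ∫ ω', X₁ ω' ∂P)) ∂P
          ≤ 7 / 6 * Real.exp (l ^ 2 * variance X₁ P / 2)) →
      P.map (X₁ + X₂) ≪ (volume : Measure ℝ) →
      Integrable (fun x : ℝ => Real.negMulLog (((P.map (X₁ + X₂)).rnDeriv volume x).toReal)) →
      ∫ x : ℝ, Real.negMulLog (((P.map (X₁ + X₂)).rnDeriv volume x).toReal)
        ≤ ∫ x : ℝ, Real.negMulLog (((P.map (X₁ + G)).rnDeriv volume x).toReal) := by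
  intro Ω _ P _ X₁ X₂ G h1 h2 hG hL hid hi12 hi1G hg hs hac hint
  exact Lib.MP_cc278a_pr.SG.subgaussian Ω P X₁ X₂ G h1 h2 hG hL hid hi12 hi1G hg hs hac hint

end Pool.Agent.Results.MP_cc278a_pr.SubGaussian
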